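import Pool.Agent.Results.MP_e961e9_lc.PureDPTimeSpace
import Pool.Agent.TH706.SK.Eps

/-!
# The travelling salesman problem by pure dynamic programs with few registers and a stack

The known pure algorithms for the travelling salesman problem are the dynamic program of Held and
Karp, with about `2 ^ n` steps and registers, and the recursion of Gurevich and Shelah (guess the
first half of the cities), with polynomial space and about `4 ^ n` steps, which needs a stack.  The
starting result `PureDPTimeSpace` shows that `4 ^ n / 2 ^ O(√(n log (n K)))` steps are needed with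
`K` registers.  Here the programs have in addition a stack (pushdown store) of unlimited height on
which arbitrary intermediate results can be stored, one per step: this does not help, with
`2 ^ (δ n)` registers `(4 - ε) ^ n` steps are still needed.

*Proof.*  Elimination of the stack (`Pool.Agent.TH706.SK.simulate_eps`): a program with `K` registers,
a stack and `L` steps can be replaced by one with `C K (log L + 1)` registers, `C L ^ (1 + η)` steps
and no stack.
-/

set_option autoImplicit false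

namespace Pool.Agent.Results.MP_e961e9_lc.FourToNWithStack

open Finset Filter
open Pool.Agent.H564R3.PW (Instr exec)
open Pool.Agent.H564R3.TS (tours)
open Pool.Agent.TH706.SK (SInstr sexec simulate_eps)
open Pool.Agent.Results.MP_e961e9_lc.PureDPTimeSpace (len SolvesTSP)

/-- The (min,+) program `p` with a stack, whose constants are real numbers or infinity, writes into
register `o` the length of a shortest tour, for all distances in the natural numbers. -/
def StackSolvesTSP {n : ℕ} {ρ : Type} [DecidableEq ρ]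
    (p : List (SInstr (Tropical (WithTop ℝ)) (Fin (n + 2) × Fin (n + 2)) ρ)) (o : ρ) : Prop :=
  ∀ d : Fin (n + 2) × Fin (n + 2) → ℕ, ∃ f ∈ tours n, (∀ g ∈ tours n, len d f ≤ len d g) ∧
    Tropical.untrop (sexec (fun x => Tropical.trop (((d x : ℕ) : ℝ) : WithTop ℝ)) p o) =
      (((len d f : ℕ) : ℝ) : WithTop ℝ)

/-- For every `ε` in `(0, 4)` there is `δ > 0` such that for all large `n`: each (min,+) program
with at most `2 ^ (δ n)` registers and a stack of unlimited height which computes the length of a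
shortest tour through `n + 2` cities has at least `(4 - ε) ^ n` instructions. -/
theorem result (ε : ℝ) (hε : 0 < ε) (hε' : ε < 4) :
    ∃ (δ : ℝ) (n₀ : ℕ), 0 < δ ∧ ∀ n ≥ n₀, ∀ (ρ : Type) [Fintype ρ] [DecidableEq ρ]
        (p : List (SInstr (Tropical (WithTop ℝ)) (Fin (n + 2) × Fin (n + 2)) ρ)) (o : ρ),
        StackSolvesTSP p o → (Fintype.card ρ : ℝ) ≤ 2 ^ (δ * n) → (4 - ε) ^ n ≤ p.length := by
  obtain ⟨b, hb⟩ : ∃ b : ℝ, b = 4 - ε := ⟨_, rfl⟩
  have hb0 : 0 < b := by rw [hb]; linarith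
  obtain ⟨η, hη, hη2⟩ : ∃ η : ℝ, 0 < η ∧ b ^ (1 + η) < 4 := by
    have h1 : ContinuousAt (fun η : ℝ => b ^ (1 + η)) 0 := by
      apply ContinuousAt.rpow continuousAt_const (by fun_prop)
      exact Or.inl hb0.ne'
    have h2 : (fun η : ℝ => b ^ (1 + η)) 0 < 4 := by
      simp only [add_zero, Real.rpow_one]
      rw [hb]
      linarith
    have h3 : ∀ᶠ η : ℝ in nhds 0, b ^ (1 + η) < 4 := h1.eventually (gt_mem_nhds h2)
    obtain ⟨t, ht, h4⟩ := Metric.eventually_nhds_iff.1 h3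
    refine ⟨t / 2, by positivity, h4 ?_⟩
    rw [Real.dist_eq, sub_zero, abs_of_pos (by positivity)]
    linarith
  obtain ⟨C, hC⟩ := simulate_eps η hη
  obtain ⟨a, ha⟩ : ∃ a : ℝ, a = b ^ (1 + η) := ⟨_, rfl⟩
  rw [← ha] at hη2
  have ha0 : 0 < a := by rw [ha]; exact Real.rpow_pos_of_pos hb0 _
  obtain ⟨κ, hκ⟩ : ∃ κ : ℝ, κ = Real.logb 2 (4 / a) := ⟨_, rfl⟩
  have hκ0 : 0 < κ := by
    rw [hκ]
    apply Real.logb_pos (by norm_num)
    rw [lt_div_iff₀ ha0]
    linarith
  have h2κ : (2 : ℝ) ^ κ = 4 / a := by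
    rw [hκ, Real.rpow_logb (by norm_num) (by norm_num) (by positivity)]
  obtain ⟨δ, hδ⟩ : ∃ δ : ℝ, δ = (κ / 20) ^ 2 := ⟨_, rfl⟩
  have hδ0 : 0 < δ := by rw [hδ]; positivity
  have hδs : Real.sqrt δ = κ / 20 := by
    rw [hδ, Real.sqrt_sq (by positivity)]
  -- the registers for the stack
  have e1 : ∀ᶠ n : ℕ in atTop, (C : ℝ) * (2 * n + 1) ≤ 2 ^ (δ / 2 * n) := by
    have h1 : Tendsto (fun n : ℕ => (n : ℝ) ^ 1 / ((2 : ℝ) ^ (δ / 2)) ^ n) atTop (nhds 0) :=
      tendsto_pow_const_div_const_pow_of_one_lt 1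
        (Real.one_lt_rpow (by norm_num) (by positivity))
    have h2 : ∀ᶠ n : ℕ in atTop, (n : ℝ) ^ 1 / ((2 : ℝ) ^ (δ / 2)) ^ n < 1 / (3 * (C + 1)) :=
      h1.eventually (gt_mem_nhds (by positivity))
    filter_upwards [h2, eventually_ge_atTop 1] with n hn hn1
    have hn2 : (1 : ℝ) ≤ n := by exact_mod_cast hn1
    have h3 : (2 : ℝ) ^ (δ / 2 * n) = ((2 : ℝ) ^ (δ / 2)) ^ n := by
      rw [Real.rpow_mul (by norm_num), Real.rpow_natCast]
    rw [h3]
    rw [pow_one, div_lt_div_iff₀ (by positivity) (by positivity)] at hn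
    have hC0 : (0 : ℝ) ≤ C := Nat.cast_nonneg _
    nlinarith
  have e2 : ∀ᶠ n : ℕ in atTop, (2 : ℝ) * (n + 2) ^ 2 ≤ 2 ^ (δ * n) := by
    have h1 : Tendsto (fun n : ℕ => (n : ℝ) ^ 2 / ((2 : ℝ) ^ δ) ^ n) atTop (nhds 0) :=
      tendsto_pow_const_div_const_pow_of_one_lt 2
        (Real.one_lt_rpow (by norm_num) (by positivity))
    have h2 : ∀ᶠ n : ℕ in atTop, (n : ℝ) ^ 2 / ((2 : ℝ) ^ δ) ^ n < 1 / 18 :=
      h1.eventually (gt_mem_nhds (by norm_num))
    filter_upwards [h2, eventually_ge_atTop 1] with n hn hn1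
    have hn2 : (1 : ℝ) ≤ n := by exact_mod_cast hn1
    have h3 : (2 : ℝ) ^ (δ * n) = ((2 : ℝ) ^ δ) ^ n := by
      rw [Real.rpow_mul (by norm_num), Real.rpow_natCast]
    rw [h3]
    rw [div_lt_div_iff₀ (by positivity) (by positivity)] at hn
    nlinarith
  -- the final contradiction
  have e3 : ∀ᶠ n : ℕ in atTop, ((n : ℝ) + 1) * (C * a ^ n) * (2 ^ (κ / 2 * n) * 128) <
      4 ^ (n + 1) := by
    obtain ⟨r, hr⟩ : ∃ r : ℝ, r = a * 2 ^ (κ / 2) / 4 := ⟨_, rfl⟩
    have hr0 : 0 ≤ r := by rw [hr]; positivity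
    have hr1 : r < 1 := by
      rw [hr, div_lt_one (by norm_num)]
      have h1 : (2 : ℝ) ^ (κ / 2) < 2 ^ κ :=
        Real.rpow_lt_rpow_of_exponent_lt (by norm_num) (by linarith)
      rw [h2κ] at h1
      calc a * 2 ^ (κ / 2) < a * (4 / a) := mul_lt_mul_of_pos_left h1 ha0
        _ = 4 := by field_simp
    have h1 := (tendsto_self_mul_const_pow_of_lt_one hr0 hr1).eventually
      (gt_mem_nhds (show (0 : ℝ) < 1 / (64 * (C + 1)) by positivity))
    filter_upwards [h1, eventually_ge_atTop 1] with n hn hn1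
    have hn2 : (1 : ℝ) ≤ n := by exact_mod_cast hn1
    rw [lt_div_iff₀ (by positivity)] at hn
    have h3 : (2 : ℝ) ^ (κ / 2 * n) = ((2 : ℝ) ^ (κ / 2)) ^ n := by
      rw [Real.rpow_mul (by norm_num), Real.rpow_natCast]
    have h4 : a ^ n * ((2 : ℝ) ^ (κ / 2)) ^ n = r ^ n * 4 ^ n := by
      rw [← mul_pow, ← mul_pow, hr]
      congr 1
      ring
    have hC0 : (0 : ℝ) ≤ C := Nat.cast_nonneg _
    have hrn : 0 ≤ r ^ n := pow_nonneg hr0 n
    rw [h3]
    have e5 : ((n : ℝ) + 1) * (C * a ^ n) * (((2 : ℝ) ^ (κ / 2)) ^ n * 128) =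
        (128 * C * ((n + 1) * r ^ n)) * 4 ^ n := by
      calc ((n : ℝ) + 1) * (C * a ^ n) * (((2 : ℝ) ^ (κ / 2)) ^ n * 128) =
          (128 * C * (n + 1)) * (a ^ n * ((2 : ℝ) ^ (κ / 2)) ^ n) := by ring
        _ = _ := by rw [h4]; ring
    rw [e5, pow_succ, mul_comm ((4 : ℝ) ^ n) 4]
    apply mul_lt_mul_of_pos_right _ (by positivity)
    have h6 : ((n : ℝ) + 1) * r ^ n ≤ 2 * (n * r ^ n) := by nlinarith
    have h7 : (0 : ℝ) ≤ n * r ^ n := by positivity
    calc 128 * (C : ℝ) * ((n + 1) * r ^ n) ≤ 128 * C * (2 * (n * r ^ n)) :=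
          mul_le_mul_of_nonneg_left h6 (by positivity)
      _ = 4 * ((n * r ^ n) * (64 * C)) := by ring
      _ ≤ 4 * ((n * r ^ n) * (64 * (C + 1))) := by
          apply mul_le_mul_of_nonneg_left _ (by norm_num)
          apply mul_le_mul_of_nonneg_left _ h7
          linarith
      _ < 4 * 1 := mul_lt_mul_of_pos_left hn (by norm_num)
      _ = 4 := by norm_num
  obtain ⟨n₁, hn₁⟩ := eventually_atTop.1 (e1.and (e2.and e3))
  refine ⟨δ / 2, n₁ + 1, by positivity, fun n hn ρ _ _ p o h hK => ?_⟩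
  by_contra hlt
  push Not at hlt
  rw [← hb] at hlt
  obtain ⟨g1, g2, g3⟩ := hn₁ n (by omega)
  obtain ⟨S, z, q, hS, hq, hqv⟩ := hC _ _ ρ p
  have hn1 : (1 : ℝ) ≤ n := by
    have : 1 ≤ n := by omega
    exact_mod_cast this
  have hlog : Nat.log 2 p.length ≤ 2 * n := by
    rcases Nat.eq_zero_or_pos p.length with h0 | h0
    · rw [h0]; simp
    · have h1 : (p.length : ℝ) < 4 ^ n := by
        refine hlt.trans_le (pow_le_pow_left₀ hb0.le ?_ n)
        rw [hb]
        linarith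
      have h2 : p.length < 4 ^ n := by exact_mod_cast h1
      have h3 : p.length < 2 ^ (2 * n) := by
        rw [pow_mul]
        exact h2
      exact (Nat.log_lt_of_lt_pow (by omega) h3).le
  have hsol : SolvesTSP q (o, z) := by
    intro d
    obtain ⟨f, h1, h2, h3⟩ := h d
    refine ⟨f, h1, h2, ?_⟩
    rw [hqv]
    exact h3
  have hcard : (Fintype.card (ρ × Fin S) : ℝ) ≤ 2 ^ (δ * n) := by
    rw [Fintype.card_prod, Fintype.card_fin]
    have h1 : (S : ℝ) ≤ C * (2 * n + 1) := by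
      have : S ≤ C * (2 * n + 1) := hS.trans (Nat.mul_le_mul_left _ (by omega))
      exact_mod_cast this
    have h2 : (2 : ℝ) ^ (δ * n) = 2 ^ (δ / 2 * n) * 2 ^ (δ / 2 * n) := by
      rw [← Real.rpow_add (by norm_num)]
      congr 1
      ring
    rw [h2]
    push_cast
    exact mul_le_mul hK (h1.trans g1) (Nat.cast_nonneg _) (by positivity)
  have hcard1 : 1 ≤ Fintype.card (ρ × Fin S) := Fintype.card_pos_iff.2 ⟨(o, z)⟩
  have hmain := Pool.Agent.Results.MP_e961e9_lc.PureDPTimeSpace.result n (ρ × Fin S) q (o, z) hsol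
  obtain ⟨K, hKd⟩ : ∃ K, K = Fintype.card (ρ × Fin S) := ⟨_, rfl⟩
  rw [← hKd] at hmain hcard hcard1
  have hK1 : (1 : ℝ) ≤ K := by exact_mod_cast hcard1
  have hexp : 5 * Real.sqrt (((n : ℝ) + 1) * Real.logb 2 (2 * ((n : ℝ) + 2) ^ 2 * K)) ≤
      κ / 2 * n := by
    have h1 : Real.logb 2 (2 * ((n : ℝ) + 2) ^ 2 * K) ≤ 2 * δ * n := by
      rw [Real.logb_le_iff_le_rpow (by norm_num) (by positivity)]
      have h2 : (2 : ℝ) ^ (2 * δ * n) = 2 ^ (δ * n) * 2 ^ (δ * n) := by
        rw [← Real.rpow_add (by norm_num)]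
        congr 1
        ring
      rw [h2]
      exact mul_le_mul g2 hcard (Nat.cast_nonneg _) (by positivity)
    have h3 : ((n : ℝ) + 1) * Real.logb 2 (2 * ((n : ℝ) + 2) ^ 2 * K) ≤ (2 * Real.sqrt δ * n) ^ 2 := by
      calc ((n : ℝ) + 1) * Real.logb 2 (2 * ((n : ℝ) + 2) ^ 2 * K) ≤ (2 * n) * (2 * δ * n) := by
            apply mul_le_mul (by linarith) h1
            · apply Real.logb_nonneg (by norm_num)
              nlinarith
            · positivity
        _ = (2 * Real.sqrt δ * n) ^ 2 := by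
            rw [mul_pow, mul_pow, Real.sq_sqrt hδ0.le]
            ring
    have h4 : Real.sqrt (((n : ℝ) + 1) * Real.logb 2 (2 * ((n : ℝ) + 2) ^ 2 * K)) ≤
        2 * Real.sqrt δ * n := by
      rw [Real.sqrt_le_left (by positivity)]
      exact h3
    rw [hδs] at h4
    linarith
  have hq' : (q.length : ℝ) ≤ C * a ^ n := by
    refine hq.trans ?_
    apply mul_le_mul_of_nonneg_left _ (Nat.cast_nonneg _)
    calc (p.length : ℝ) ^ (1 + η) ≤ (b ^ n) ^ (1 + η) :=
          Real.rpow_le_rpow (Nat.cast_nonneg _) hlt.le (by linarith)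
      _ = a ^ n := by
          rw [ha, ← Real.rpow_natCast, ← Real.rpow_natCast, ← Real.rpow_mul hb0.le,
            ← Real.rpow_mul hb0.le, mul_comm]
  have hpow : (2 : ℝ) ^ (5 * Real.sqrt (((n : ℝ) + 1) *
      Real.logb 2 (2 * ((n : ℝ) + 2) ^ 2 * K)) + 7) ≤ 2 ^ (κ / 2 * n) * 128 := by
    rw [Real.rpow_add (by norm_num)]
    have e7 : (2 : ℝ) ^ (7 : ℝ) = 128 := by norm_num
    rw [e7]
    exact mul_le_mul_of_nonneg_right
      (Real.rpow_le_rpow_of_exponent_le (by norm_num) hexp) (by norm_num)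
  have hfin : (4 : ℝ) ^ (n + 1) ≤ ((n : ℝ) + 1) * (C * a ^ n) * (2 ^ (κ / 2 * n) * 128) := by
    refine hmain.trans ?_
    apply mul_le_mul _ hpow (by positivity) (by positivity)
    exact mul_le_mul_of_nonneg_left hq' (by positivity)
  linarith

end Pool.Agent.Results.MP_e961e9_lc.FourToNWithStack
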